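import Pool.Agent.W907.SG.Stmts2

set_option autoImplicit false

/-!
# The order does not matter for `L2Van`, and `L2Van` is invariant under isomorphism
-/

namespace Pool.Agent.W460.SG

open Pool.Agent.W907.SG

theorem cox_reindex {V U : Type} (G : SimpleGraph V) (H : SimpleGraph U) (e : G ≃g H) :
    (cox G).reindex e.toEquiv = cox H := by
  apply CoxeterMatrix.ext
  ext a b
  show (cox G).M (e.toEquiv.symm a) (e.toEquiv.symm b) = (cox H).M a b
  unfold cox
  simp only [Matrix.of_apply]
  by_cases h1 : a = b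
  · subst h1
    simp
  · have h2 : e.toEquiv.symm a ≠ e.toEquiv.symm b := fun h => h1 (e.toEquiv.symm.injective h)
    rw [if_neg h1, if_neg h2]
    have h3 : G.Adj (e.toEquiv.symm a) (e.toEquiv.symm b) ↔ H.Adj a b := by
      rw [← e.map_adj_iff]
      show H.Adj (e.toEquiv (e.toEquiv.symm a)) (e.toEquiv (e.toEquiv.symm b)) ↔ _
      rw [Equiv.apply_symm_apply, Equiv.apply_symm_apply]
    by_cases h4 : H.Adj a b
    · rw [if_pos h4, if_pos (h3.2 h4)]
    · rw [if_neg h4, if_neg (fun h => h4 (h3.1 h))]

theorem exists_equiv {V U : Type} (G : SimpleGraph V) (H : SimpleGraph U) (e : G ≃g H) :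
    ∃ φ : W G ≃* W H, ∀ v, φ ((cox G).simple v) = (cox H).simple (e v) := by
  have key : ∀ M : CoxeterMatrix U, (cox G).reindex e.toEquiv = M →
      ∃ φ : (cox G).Group ≃* M.Group, ∀ v, φ ((cox G).simple v) = M.simple (e v) := by
    intro M hM
    subst hM
    exact ⟨((cox G).reindexGroupEquiv e.toEquiv).symm, fun v =>
      CoxeterMatrix.reindexGroupEquiv_symm_apply_simple (cox G) e.toEquiv v⟩
  exact key _ (cox_reindex G H e)

section signs

variable {V U : Type} [LinearOrder V] [LinearOrder U] (e : V ≃ U)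

/-- the sign of the pair -/
noncomputable def hh (a b : V) : ℝ := if a < b ∧ e b < e a then -1 else 1

/-- the sign of the reordering of `T` -/
noncomputable def gg (T : Finset V) : ℝ := ∏ a ∈ T, ∏ b ∈ T, hh e a b

theorem hh_sq (a b : V) : hh e a b * hh e a b = 1 := by
  unfold hh
  split_ifs <;> norm_num

theorem gg_sq (T : Finset V) : gg e T * gg e T = 1 := by
  unfold gg
  rw [← Finset.prod_mul_distrib]
  refine Finset.prod_eq_one fun a _ => ?_
  rw [← Finset.prod_mul_distrib]
  exact Finset.prod_eq_one fun b _ => hh_sq e a b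

theorem gg_ne (T : Finset V) : gg e T ≠ 0 := fun h => by
  have := gg_sq e T
  rw [h] at this
  norm_num at this

theorem hh_self (a : V) : hh e a a = 1 := by
  unfold hh
  rw [if_neg (fun h => lt_irrefl _ h.1)]

theorem gg_insert (v : V) (T : Finset V) (h : v ∉ T) :
    gg e (insert v T) = gg e T * ∏ b ∈ T, (hh e v b * hh e b v) := by
  unfold gg
  rw [Finset.prod_insert h, Finset.prod_insert h, hh_self, one_mul]
  have h1 : ∀ a ∈ T, ∏ b ∈ insert v T, hh e a b = hh e a v * ∏ b ∈ T, hh e a b :=
    fun a _ => Finset.prod_insert h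
  rw [Finset.prod_congr rfl h1, Finset.prod_mul_distrib, Finset.prod_mul_distrib]
  ring

theorem sg_prod (v : V) (T : Finset V) : (sg v T : ℝ) = ∏ u ∈ T, (if u < v then (-1 : ℝ) else 1) := by
  unfold sg
  rw [Finset.prod_ite, Finset.prod_const, Finset.prod_const_one, mul_one]
  push_cast
  rfl

theorem sg_map (v : V) (T : Finset V) (h : v ∉ T) :
    (sg v T : ℝ) * gg e (insert v T) = gg e T * (sg (e v) (T.map e.toEmbedding) : ℝ) := by
  rw [gg_insert e v T h, sg_prod, sg_prod, Finset.prod_map, mul_left_comm, ← Finset.prod_mul_distrib]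
  congr 1
  refine Finset.prod_congr rfl fun u hu => ?_
  have hne : u ≠ v := fun h1 => h (h1 ▸ hu)
  have hne' : e u ≠ e v := fun h1 => hne (e.injective h1)
  show _ = if e u < e v then (-1 : ℝ) else 1
  unfold hh
  rcases lt_or_gt_of_ne hne with h1 | h1
  · rcases lt_or_gt_of_ne hne' with h2 | h2
    · rw [if_pos h1, if_pos h2, if_neg (fun h3 => lt_asymm h1 h3.1),
        if_neg (fun h3 => lt_asymm h2 h3.2)]
      norm_num
    · rw [if_pos h1, if_neg (lt_asymm h2), if_neg (fun h3 => lt_asymm h1 h3.1), if_pos ⟨h1, h2⟩]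
      norm_num
  · rcases lt_or_gt_of_ne hne' with h2 | h2
    · rw [if_neg (lt_asymm h1), if_pos h2, if_pos ⟨h1, h2⟩, if_neg (fun h3 => lt_asymm h1 h3.1)]
      norm_num
    · rw [if_neg (lt_asymm h1), if_neg (lt_asymm h2), if_neg (fun h3 => lt_asymm h2 h3.2),
        if_neg (fun h3 => lt_asymm h1 h3.1)]
      norm_num

end signs

/-- ORD -/
theorem ord : S_ORD := by
  intro V U _ _ o o' G H i ⟨e⟩ hG c hc
  obtain ⟨φ, hφ⟩ := exists_equiv G H e
  obtain ⟨E, hE⟩ : ∃ E : V ≃ U, E = e.toEquiv := ⟨_, rfl⟩
  have hEe : ∀ v, E v = e v := fun v => by rw [hE]; rfl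
  obtain ⟨c', hc'⟩ : ∃ c' : W G → Finset V → ℝ, ∀ w T, c' w T = gg E T * c (φ w) (T.map E.toEmbedding) :=
    ⟨_, fun _ _ => rfl⟩
  have hcl : ∀ T : Finset V, H.IsClique ((T.map E.toEmbedding : Finset U) : Set U) ↔
      G.IsClique (T : Set V) := by
    intro T
    constructor
    · intro h a ha b hb hab
      have h1 := h (x := E a) (by simpa using ha) (y := E b) (by simpa using hb)
        (fun h2 => hab (E.injective h2))
      rw [hEe, hEe] at h1
      exact e.map_adj_iff.1 h1
    · intro h a ha b hb hab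
      obtain ⟨x, hx, rfl⟩ := Finset.mem_map.1 (Finset.mem_coe.1 ha)
      obtain ⟨y, hy, rfl⟩ := Finset.mem_map.1 (Finset.mem_coe.1 hb)
      show H.Adj (E x) (E y)
      rw [hEe, hEe]
      exact e.map_adj_iff.2 (h hx hy (fun h2 => hab (by rw [h2])))
  have hharm : IsHarm G i c' := by
    refine ⟨fun w T h => ?_, fun w T t ht => ?_, ?_, fun w T => ?_, fun w T hT => ?_⟩
    · rw [hc', hc.supp _ _ (fun h1 => h ⟨(hcl T).1 h1.1, by rw [← h1.2, Finset.card_map]⟩), mul_zero]
    · rw [hc', hc', map_mul, hφ, ← hEe,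
        hc.anti _ _ (E t) (Finset.mem_map_of_mem E.toEmbedding ht)]
      ring
    · have hinj : Function.Injective
          (fun x : W G × Finset V => ((φ x.1, x.2.map E.toEmbedding) : W H × Finset U)) := by
        rintro ⟨a, S⟩ ⟨b, T⟩ h
        have h1 := congrArg Prod.fst h
        have h2 := congrArg Prod.snd h
        simp only at h1 h2
        rw [Prod.mk.injEq]
        exact ⟨φ.injective h1, Finset.map_injective _ h2⟩
      have h1 := hc.summable.comp_injective hinj
      refine h1.congr fun x => ?_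
      simp only [Function.comp, hc']
      have h2 := gg_sq E x.2
      rw [mul_pow, pow_two (gg E x.2), h2, one_mul]
    · have h1 : ∀ v ∈ Tᶜ, (sg v T : ℝ) * c' w (insert v T) =
          gg E T * ((sg (E v) (T.map E.toEmbedding) : ℝ) *
            c (φ w) (insert (E v) (T.map E.toEmbedding))) := by
        intro v hv
        rw [hc', ← mul_assoc, sg_map E v T (Finset.mem_compl.1 hv), Finset.map_insert, mul_assoc]
        rfl
      rw [Finset.sum_congr rfl h1, ← Finset.mul_sum]
      have h2 := hc.cycle (φ w) (T.map E.toEmbedding)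
      rw [← Finset.sum_equiv E (s := Tᶜ)
        (f := fun v => (sg (E v) (T.map E.toEmbedding) : ℝ) *
            c (φ w) (insert (E v) (T.map E.toEmbedding))) (fun v => by simp) (fun v _ => rfl)] at h2
      rw [h2, mul_zero]
    · have h1 : ∀ t ∈ T, (sg t (T.erase t) : ℝ) *
          (c' w (T.erase t) - c' (w * (cox G).simple t) (T.erase t)) =
          gg E T * ((sg (E t) ((T.map E.toEmbedding).erase (E t)) : ℝ) *
            (c (φ w) ((T.map E.toEmbedding).erase (E t)) -
              c (φ w * (cox H).simple (E t)) ((T.map E.toEmbedding).erase (E t)))) := by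
        intro t ht
        have h2 := sg_map E t (T.erase t) (Finset.notMem_erase t T)
        rw [Finset.insert_erase ht] at h2
        have h3 : (T.erase t).map E.toEmbedding = (T.map E.toEmbedding).erase (E t) :=
          Finset.map_erase E.toEmbedding T t
        rw [h3] at h2
        rw [hc', hc', map_mul, hφ, ← hEe, h3, ← mul_sub, ← mul_assoc, ← mul_assoc]
        congr 1
        have h4 := gg_sq E T
        have h5 := gg_sq E (T.erase t)
        linear_combination (gg E (T.erase t) * gg E T) * h2 -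
          ((sg t (T.erase t) : ℝ) * gg E (T.erase t)) * h4 +
          (gg E T * (sg (E t) ((T.map E.toEmbedding).erase (E t)) : ℝ)) * h5
      rw [Finset.sum_congr rfl h1, ← Finset.mul_sum]
      have h2 := hc.cocycle (φ w) (T.map E.toEmbedding) ((hcl T).2 hT)
      rw [Finset.sum_map] at h2
      have h3 : ∑ t ∈ T, ((sg (E t) ((T.map E.toEmbedding).erase (E t)) : ℝ) *
            (c (φ w) ((T.map E.toEmbedding).erase (E t)) -
              c (φ w * (cox H).simple (E t)) ((T.map E.toEmbedding).erase (E t)))) = 0 := h2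
      rw [h3, mul_zero]
  have h0 := hG c' hharm
  funext w' S
  obtain ⟨w, rfl⟩ := φ.surjective w'
  have hS : (S.map E.symm.toEmbedding).map E.toEmbedding = S := by
    ext u
    simp
  have h1 : c' w (S.map E.symm.toEmbedding) = 0 := by
    rw [h0]
    rfl
  rw [hc', hS] at h1
  exact (mul_eq_zero.1 h1).resolve_left (gg_ne E _)

end Pool.Agent.W460.SG
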